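import Mathlib

set_option autoImplicit false
open Filter Topology Set BoundedContinuousFunction

namespace Pool.Agent.H.MP_ae5379_an

lemma lumer {E : Type} [NormedAddCommGroup E] [NormedSpace ℝ E] (x0 : E) (hx0 : x0 ≠ 0)
    (T : E →L[ℝ] E)
    (H : ∀ ε : ℝ, 0 < ε → ∃ (z : E) (φ : E →L[ℝ] ℝ), ‖φ‖ ≤ 1 ∧ ‖z‖ ≤ 1 + ε ∧ 1 - ε ≤ φ z ∧
      ‖T‖ - ε ≤ |φ (T z)|) (e : ℝ) (he : 0 < e) :
    ∃ (x : E) (f : E →L[ℝ] ℝ), ‖x‖ = 1 ∧ ‖f‖ = 1 ∧ f x = 1 ∧ ‖T‖ - e < ‖f (T x)‖ := by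
  by_contra h
  push Not at h
  set M := ‖T‖ with hM
  have M0 : 0 ≤ M := norm_nonneg _
  have key : ∀ w : E, w ≠ 0 → ∃ f : E →L[ℝ] ℝ, ‖f‖ = 1 ∧ f w = ‖w‖ ∧ |f (T w)| ≤ (M - e) * ‖w‖ := by
    intro w hw
    obtain ⟨f, hf, hf'⟩ := exists_dual_vector ℝ w (norm_ne_zero_iff.2 hw)
    have hw' : 0 < ‖w‖ := norm_pos_iff.2 hw
    have := h (‖w‖⁻¹ • w) f (by rw [norm_smul, norm_inv, norm_norm, inv_mul_cancel₀ hw'.ne']) hf
      (by rw [map_smul, hf']; simp [hw'.ne'])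
    rw [map_smul, map_smul, norm_smul, norm_inv, norm_norm, inv_mul_le_iff₀ hw'] at this
    exact ⟨f, hf, hf', by rw [mul_comm]; exact this⟩
  have m0 : 0 ≤ M - e := by
    obtain ⟨f, -, -, h3⟩ := key x0 hx0
    exact nonneg_of_mul_nonneg_left ((abs_nonneg _).trans h3) (norm_pos_iff.2 hx0)
  have low : ∀ (w : E) (t : ℝ), (1 - |t| * (M - e)) * ‖w‖ ≤ ‖w - t • T w‖ := by
    intro w t
    by_cases hw : w = 0
    · simp [hw]
    obtain ⟨f, h1, h2, h3⟩ := key w hw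
    have h4 := f.le_opNorm (w - t • T w)
    rw [h1, one_mul, map_sub, map_smul, h2, smul_eq_mul] at h4
    have h5 : t * f (T w) ≤ |t| * ((M - e) * ‖w‖) :=
      (le_abs_self _).trans (by rw [abs_mul]; exact mul_le_mul_of_nonneg_left h3 (abs_nonneg _))
    have h6 := (le_abs_self _).trans h4
    linarith
  obtain ⟨s, s0, s1, s2⟩ : ∃ s : ℝ, 0 < s ∧ s * M ≤ 1 ∧ s * (2 * M ^ 2) < e := by
    have h1 : ∀ᶠ s in 𝓝 (0 : ℝ), s * M < 1 :=
      (continuous_id.mul continuous_const).continuousAt.eventually_lt continuousAt_const (by simp)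
    have h2 : ∀ᶠ s in 𝓝 (0 : ℝ), s * (2 * M ^ 2) < e :=
      (continuous_id.mul continuous_const).continuousAt.eventually_lt continuousAt_const
        (by simpa)
    obtain ⟨s, ⟨a, b⟩, c⟩ := (((h1.and h2).filter_mono nhdsWithin_le_nhds).and
      (self_mem_nhdsWithin (s := Ioi 0))).exists
    exact ⟨s, c, a.le, b⟩
  have s3 : 0 ≤ 1 - s * (M - e) := by nlinarith
  have main : ∀ ε : ℝ, 0 < ε →
      (1 - s * (M - e)) * (1 - ε + s * (M - ε)) ≤ (1 + ε) * (1 + s ^ 2 * M ^ 2) := by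
    intro ε hε
    obtain ⟨z, φ, h1, h2, h3, h4⟩ := H ε hε
    obtain ⟨t, ht, ht'⟩ : ∃ t : ℝ, |t| = s ∧ t * φ (T z) = s * |φ (T z)| := by
      rcases le_total 0 (φ (T z)) with h5 | h5
      · exact ⟨s, abs_of_pos s0, by rw [abs_of_nonneg h5]⟩
      · exact ⟨-s, by rw [abs_neg, abs_of_pos s0], by rw [abs_of_nonpos h5]; ring⟩
    have a1 := low (z + t • T z) t
    have a2 : z + t • T z - t • T (z + t • T z) = z - (t * t) • T (T z) := by
      rw [map_add, map_smul, smul_add, smul_smul]; abel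
    have a3 : 1 - ε + s * (M - ε) ≤ ‖z + t • T z‖ := by
      have b1 := φ.le_opNorm (z + t • T z)
      rw [map_add, map_smul, smul_eq_mul, ht'] at b1
      have b2 := (le_abs_self _).trans b1
      have b3 := mul_le_mul_of_nonneg_right h1 (norm_nonneg (z + t • T z))
      have b4 := mul_le_mul_of_nonneg_left h4 s0.le
      linarith
    have a4 : ‖z - (t * t) • T (T z)‖ ≤ (1 + ε) * (1 + s ^ 2 * M ^ 2) := by
      refine (norm_sub_le _ _).trans ?_
      rw [norm_smul, Real.norm_eq_abs, abs_mul, ht]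
      have b1 : ‖T (T z)‖ ≤ M * (M * (1 + ε)) :=
        (T.le_opNorm _).trans (mul_le_mul_of_nonneg_left ((T.le_opNorm _).trans
          (mul_le_mul_of_nonneg_left h2 M0)) M0)
      have b2 := mul_le_mul_of_nonneg_left b1 (mul_pos s0 s0).le
      nlinarith
    rw [a2, ht] at a1
    exact (mul_le_mul_of_nonneg_left a3 s3).trans (a1.trans a4)
  have lim : (1 - s * (M - e)) * (1 - 0 + s * (M - 0)) ≤ (1 + 0) * (1 + s ^ 2 * M ^ 2) := by
    refine le_of_tendsto_of_tendsto (b := 𝓝[>] (0 : ℝ))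
      (f := fun ε => (1 - s * (M - e)) * (1 - ε + s * (M - ε)))
      (g := fun ε => (1 + ε) * (1 + s ^ 2 * M ^ 2))
      (Continuous.continuousWithinAt (by fun_prop)) (Continuous.continuousWithinAt (by fun_prop)) ?_
    filter_upwards [self_mem_nhdsWithin] with ε hε using main ε hε
  have : s * (e - s * (2 * M ^ 2)) ≤ 0 := by nlinarith [mul_nonneg (mul_pos s0 s0).le (mul_nonneg M0 he.le)]
  nlinarith

/-- enumeration of the rationals -/
noncomputable def rho (n : ℕ) : ℝ := (((Denumerable.eqv ℚ).symm n : ℚ) : ℝ)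

/-- the space -/
def X0 : Submodule ℝ (ℤ × ℝ →ᵇ ℝ) where
  carrier := {y | ∀ n : ℕ, y (n + 1, 0) + y (-(n + 1), 0) = y (0, rho n) / (n + 1)}
  add_mem' := by
    intro a b ha hb n
    have h1 := ha n
    have h2 := hb n
    simp only [BoundedContinuousFunction.add_apply, add_div]
    linarith
  zero_mem' := by intro n; simp
  smul_mem' := by
    intro c a ha n
    simp only [BoundedContinuousFunction.smul_apply, smul_eq_mul]
    rw [← mul_add, ha n, mul_div_assoc]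

lemma X0_closed : IsClosed (X0 : Set (ℤ × ℝ →ᵇ ℝ)) := by
  have : (X0 : Set (ℤ × ℝ →ᵇ ℝ)) =
      ⋂ n : ℕ, {y : ℤ × ℝ →ᵇ ℝ | y (n + 1, 0) + y (-(n + 1), 0) = y (0, rho n) / ((n : ℝ) + 1)} := by
    ext y; simp only [mem_iInter]; rfl
  rw [this]
  exact isClosed_iInter fun n => isClosed_eq (by fun_prop) (by fun_prop)

/-- the space as a type -/
def X : Type := X0

noncomputable instance : NormedAddCommGroup X := inferInstanceAs (NormedAddCommGroup X0)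

noncomputable instance : NormedSpace ℝ X := inferInstanceAs (NormedSpace ℝ X0)

instance : CompleteSpace X := X0_closed.completeSpace_coe

/-- evaluation -/
noncomputable def ev (p : ℤ × ℝ) : X →L[ℝ] ℝ :=
  LinearMap.mkContinuous ⟨⟨fun y => y.1 p, fun _ _ => rfl⟩, fun _ _ => rfl⟩ 1 fun y => by
    rw [one_mul]; exact y.1.norm_coe_le_norm p

lemma ev_apply (p : ℤ × ℝ) (y : X) : ev p y = y.1 p := rfl

lemma abs_le_norm (p : ℤ × ℝ) (y : X) : |y.1 p| ≤ ‖y‖ := y.1.norm_coe_le_norm p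

lemma ev_norm (p : ℤ × ℝ) : ‖ev p‖ ≤ 1 :=
  ContinuousLinearMap.opNorm_le_bound _ zero_le_one fun y => by
    rw [one_mul]; exact abs_le_norm p y

lemma norm_le' {y : X} {C : ℝ} (h : ∀ p, |y.1 p| ≤ C) : ‖y‖ ≤ C :=
  (norm_le_of_nonempty (f := y.1)).2 h

lemma bump0 (p : ℤ × ℝ) (hp : Irrational p.2) (ε : ℝ) (hε : 0 < ε) (η : ℝ) (hη : 0 < η) :
    ∃ (H : X) (h : ℤ × ℝ → ℝ), h p = 1 ∧ (∀ s, 0 ≤ h s) ∧ (∀ s, h s ≤ 1) ∧
      (∀ s, η ≤ dist s p → h s = 0) ∧ ∀ s, |H.1 s - h s| ≤ ε := by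
  obtain ⟨N, hN⟩ := exists_nat_one_div_lt hε
  obtain ⟨δ, d0, d1, d2, d3⟩ : ∃ δ : ℝ, 0 < δ ∧ δ < η ∧ δ < dist 0 p.2 ∧
      ∀ n ∈ Finset.range N, δ < dist (rho n) p.2 := by
    have h1 : ∀ᶠ δ in 𝓝 (0 : ℝ), δ < η := eventually_lt_nhds hη
    have h2 : ∀ᶠ δ in 𝓝 (0 : ℝ), δ < dist 0 p.2 :=
      eventually_lt_nhds (dist_pos.2 hp.ne_zero.symm)
    have h3 : ∀ᶠ δ in 𝓝 (0 : ℝ), ∀ n ∈ Finset.range N, δ < dist (rho n) p.2 :=
      (Finset.eventually_all _).2 fun n _ => eventually_lt_nhds (dist_pos.2 (hp.ne_rat _).symm)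
    obtain ⟨δ, ⟨a, b, c⟩, d⟩ := (((h1.and (h2.and h3)).filter_mono nhdsWithin_le_nhds).and
      (self_mem_nhdsWithin (s := Ioi 0))).exists
    exact ⟨δ, d, a, b, c⟩
  let h : ℤ × ℝ → ℝ := fun s => max 0 (1 - dist s p / δ)
  have h0 : ∀ s, 0 ≤ h s := fun s => le_max_left _ _
  have h1 : ∀ s, h s ≤ 1 := fun s => max_le zero_le_one (by
    have : 0 ≤ dist s p / δ := by positivity
    linarith)
  have h2 : ∀ s, δ ≤ dist s p → h s = 0 := fun s hs => max_eq_left (by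
    have := (one_le_div d0).2 hs
    linarith)
  have h3 : ∀ s : ℤ × ℝ, δ < dist s.2 p.2 → h s = 0 := fun s hs =>
    h2 s (hs.le.trans (le_max_right _ _))
  let c : ℤ → ℝ := fun j => if 0 < j then h (0, rho (j - 1).toNat) / j else 0
  have c1 : ∀ n : ℕ, c (n + 1) = h (0, rho n) / (n + 1) := fun n => by
    have : (0 : ℤ) < n + 1 := by omega
    simp [c, this]
  have c2 : ∀ j, j ≤ 0 → c j = 0 := fun j hj => if_neg (not_lt.2 hj)
  have c3 : ∀ j, |c j| ≤ ε := by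
    intro j
    rcases le_or_gt j 0 with hj | hj
    · rw [c2 j hj, abs_zero]; exact hε.le
    · obtain ⟨n, rfl⟩ : ∃ n : ℕ, j = n + 1 := ⟨(j - 1).toNat, by omega⟩
      rw [c1]
      by_cases hn : n < N
      · rw [h3 _ (d3 n (Finset.mem_range.2 hn)), zero_div, abs_zero]; exact hε.le
      · rw [abs_of_nonneg (div_nonneg (h0 _) (by positivity))]
        refine le_trans (div_le_div₀ zero_le_one (h1 _) (by positivity) ?_) hN.le
        have : (N : ℝ) ≤ n := by exact_mod_cast not_lt.1 hn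
        linarith
  have hc : Continuous fun s : ℤ × ℝ => h s + c s.1 :=
    Continuous.add (by fun_prop) ((continuous_of_discreteTopology (f := c)).comp continuous_fst)
  refine ⟨⟨ofNormedAddCommGroup _ hc (1 + ε) fun s => ?_, fun n => ?_⟩, h, by simp [h], h0, h1,
    fun s hs => h2 s (d1.le.trans hs), fun s => ?_⟩
  · exact (abs_add_le _ _).trans (add_le_add (by rw [abs_of_nonneg (h0 s)]; exact h1 s) (c3 _))
  · show h _ + c _ + (h _ + c _) = (h _ + c _) / _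
    rw [h3 (n + 1, 0) d2, h3 (-(n + 1), 0) d2, c1, c2 (-(n + 1)) (by omega), c2 0 le_rfl]
    simp
  · show |h s + c s.1 - h s| ≤ ε
    rw [add_sub_cancel_left]; exact c3 _

lemma bump (y : X) (hy : ‖y‖ ≤ 1) (p : ℤ × ℝ) (hp : Irrational p.2) (ε : ℝ) (hε : 0 < ε) :
    ∃ (z w : X) (a b : ℝ), 0 ≤ a ∧ 0 ≤ b ∧ a + b = 1 ∧ y = a • z - b • w ∧ ‖z‖ ≤ 1 + ε ∧
      ‖w‖ ≤ 1 + ε ∧ 1 - ε ≤ z.1 p ∧ 1 - ε ≤ w.1 p := by
  obtain ⟨η, hη, hη'⟩ := Metric.continuousAt_iff.1 (y.1.continuous.continuousAt (x := p))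
    (ε / 3) (by positivity)
  obtain ⟨H, h, h1, h2, h3, h4, h5⟩ := bump0 p hp (ε / 3) (by positivity) η hη
  have yb : ∀ s, |y.1 s| ≤ 1 := fun s => (abs_le_norm s y).trans hy
  have key : ∀ u : X, (∀ s, |u.1 s| ≤ 1) → (∀ s, dist s p < η → |u.1 s - u.1 p| < ε / 3) →
      ‖u + (1 - u.1 p) • H‖ ≤ 1 + ε ∧ 1 - ε ≤ (u + (1 - u.1 p) • H).1 p := by
    intro u hu hu'
    have a1 := abs_le.1 (hu p)
    have a0 : ∀ s, |(1 - u.1 p) * (H.1 s - h s)| ≤ 2 * (ε / 3) := fun s => by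
      rw [abs_mul]
      exact mul_le_mul (abs_le.2 ⟨by linarith, by linarith⟩) (h5 s) (abs_nonneg _) (by norm_num)
    refine ⟨norm_le' fun s => ?_, ?_⟩
    · show |u.1 s + (1 - u.1 p) * H.1 s| ≤ _
      have a2 := abs_le.1 (hu s)
      have a3 := abs_le.1 (a0 s)
      have a4 : 0 ≤ (1 - u.1 p) * h s := mul_nonneg (by linarith) (h2 s)
      have a5 : u.1 s + (1 - u.1 p) * h s ≤ 1 + ε / 3 := by
        rcases le_or_gt η (dist s p) with h6 | h6
        · rw [h4 s h6]; linarith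
        · have := abs_lt.1 (hu' s h6)
          have := mul_le_mul_of_nonneg_left (h3 s) (show 0 ≤ 1 - u.1 p by linarith)
          linarith
      rw [abs_le]
      constructor <;> nlinarith
    · show _ ≤ u.1 p + (1 - u.1 p) * H.1 p
      have a3 := abs_le.1 (a0 p)
      rw [h1] at a3
      nlinarith
  obtain ⟨k1, k2⟩ := key y yb fun s hs => hη' hs
  obtain ⟨k3, k4⟩ := key (-y) (fun s => (abs_neg (y.1 s)).le.trans (yb s)) fun s hs => by
    have : |y.1 s - y.1 p| < ε / 3 := hη' hs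
    show |-y.1 s - -y.1 p| < _
    rwa [neg_sub_neg, abs_sub_comm]
  have a1 := abs_le.1 (yb p)
  refine ⟨_, _, (1 + y.1 p) / 2, (1 - y.1 p) / 2, by linarith, by linarith, by ring, ?_,
    k1, k3, k2, k4⟩
  show y = _ • (y + (1 - y.1 p) • H) - _ • (-y + (1 - -y.1 p) • H)
  module

lemma norming (y : X) (C : ℝ) (h : C < ‖y‖) : ∃ p : ℤ × ℝ, Irrational p.2 ∧ C < |y.1 p| := by
  by_contra h1
  push Not at h1
  refine absurd (norm_le' fun p => ?_) (not_le.2 h)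
  have hcl : IsClosed {t : ℝ | |y.1 (p.1, t)| ≤ C} := isClosed_le (by fun_prop) continuous_const
  exact hcl.closure_subset_iff.2 (fun t ht => h1 (p.1, t) ht) (dense_irrational p.2)

/-- the extreme point -/
noncomputable def x0 : X := ⟨ofNormedAddCommGroup (fun s => (Int.sign s.1 : ℝ))
  ((continuous_of_discreteTopology (f := fun j : ℤ => (Int.sign j : ℝ))).comp continuous_fst) 1
  fun s => by
    rcases lt_trichotomy s.1 0 with h | h | h
    · simp [Int.sign_eq_neg_one_of_neg h]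
    · simp [h]
    · simp [Int.sign_eq_one_of_pos h], fun n => by
  show ((Int.sign (n + 1) : ℤ) : ℝ) + (Int.sign (-(n + 1)) : ℤ) = (Int.sign 0 : ℤ) / _
  rw [Int.sign_neg]; simp⟩

lemma x0_apply (s : ℤ × ℝ) : x0.1 s = (Int.sign s.1 : ℝ) := rfl

lemma x0_norm : ‖x0‖ ≤ 1 := norm_le' fun s => by
  rw [x0_apply]
  rcases lt_trichotomy s.1 0 with h | h | h
  · simp [Int.sign_eq_neg_one_of_neg h]
  · simp [h]
  · simp [Int.sign_eq_one_of_pos h]

lemma x0_ne : x0 ≠ 0 := fun h => by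
  have := x0_apply (1, 0)
  rw [h] at this
  have h2 : (0 : ℝ) = ((Int.sign 1 : ℤ) : ℝ) := this
  simp at h2

lemma x0_ext (y : X) (h1 : ‖x0 + y‖ ≤ 1) (h2 : ‖x0 - y‖ ≤ 1) : y = 0 := by
  have a1 : ∀ s : ℤ × ℝ, s.1 ≠ 0 → y.1 s = 0 := by
    intro s hs
    have b1 : |x0.1 s + y.1 s| ≤ 1 := (abs_le_norm s (x0 + y)).trans h1
    have b2 : |x0.1 s - y.1 s| ≤ 1 := (abs_le_norm s (x0 - y)).trans h2
    rw [x0_apply, abs_le] at b1 b2
    rcases lt_or_gt_of_ne hs with h | h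
    · simp only [Int.sign_eq_neg_one_of_neg h] at b1 b2
      push_cast at b1 b2; linarith
    · simp only [Int.sign_eq_one_of_pos h] at b1 b2
      push_cast at b1 b2; linarith
  have a2 : ∀ q : ℚ, y.1 (0, q) = 0 := by
    intro q
    have := y.2 (Denumerable.eqv ℚ q)
    rw [a1 _ (by simp only; omega), a1 _ (by simp only; omega), add_zero, eq_comm,
      div_eq_zero_iff] at this
    rcases this with h | h
    · simpa [rho] using h
    · exact absurd h (by positivity)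
  refine Subtype.ext (BoundedContinuousFunction.ext fun ⟨j, t⟩ => ?_)
  by_cases hj : j = 0
  · subst hj
    exact Rat.denseRange_cast.induction_on (p := fun t : ℝ => y.1 (0, t) = 0) t
      (isClosed_eq (by fun_prop) continuous_const) a2
  · exact a1 _ hj

lemma ev_ext (p : ℤ × ℝ) (hp : Irrational p.2) (g : X →L[ℝ] ℝ) (h1 : ‖ev p + g‖ ≤ 1)
    (h2 : ‖ev p - g‖ ≤ 1) : g = 0 := by
  have key : ∀ ε : ℝ, ∀ z : X, ‖z‖ ≤ 1 + ε → 1 - ε ≤ z.1 p → |g z| ≤ 2 * ε := by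
    intro ε z a1 a2
    have b1 := (ev p + g).le_of_opNorm_le_of_le h1 a1
    have b2 := (ev p - g).le_of_opNorm_le_of_le h2 a1
    simp only [_root_.add_apply, _root_.sub_apply, ev_apply,
      Real.norm_eq_abs, abs_le] at b1 b2
    rw [abs_le]
    constructor <;> linarith [b1.2, b2.2]
  refine (norm_le_zero_iff (a := g)).1
    (ContinuousLinearMap.opNorm_le_of_unit_norm le_rfl fun y hy => ?_)
  refine le_of_forall_pos_le_add fun ε hε => ?_
  obtain ⟨z, w, a, b, a0, b0, ab, e, c1, c2, c3, c4⟩ := bump y hy.le p hp (ε / 2) (by positivity)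
  have d1 := abs_le.1 (key _ z c1 c3)
  have d2 := abs_le.1 (key _ w c2 c4)
  rw [e, map_sub, map_smul, map_smul, Real.norm_eq_abs, abs_le, smul_eq_mul, smul_eq_mul]
  constructor <;> nlinarith

theorem index_one (T : X →L[ℝ] X) (e : ℝ) (he : 0 < e) :
    ∃ (x : X) (f : X →L[ℝ] ℝ), ‖x‖ = 1 ∧ ‖f‖ = 1 ∧ f x = 1 ∧ ‖T‖ - e < ‖f (T x)‖ := by
  refine lumer x0 x0_ne T (fun ε hε => ?_) e he
  obtain ⟨y, hy, hy'⟩ := T.exists_lt_apply_of_lt_opNorm (show ‖T‖ - ε < ‖T‖ by linarith)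
  obtain ⟨p, hp, hp'⟩ := norming _ _ hy'
  obtain ⟨z, w, a, b, a0, b0, ab, e, c1, c2, c3, c4⟩ := bump y hy.le p hp ε hε
  by_contra h
  push Not at h
  have d1 := h z (ev p) (ev_norm p) c1 c3
  have d2 := h w (ev p) (ev_norm p) c2 c4
  rw [← ev_apply, e, map_sub, map_smul, map_smul, map_sub, map_smul, map_smul] at hp'
  have d3 := abs_sub (a • ev p (T z)) (b • ev p (T w))
  simp only [smul_eq_mul] at d3 hp'
  rw [abs_mul, abs_mul, abs_of_nonneg a0, abs_of_nonneg b0] at d3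
  have d4 := mul_le_mul_of_nonneg_left d1.le a0
  have d5 := mul_le_mul_of_nonneg_left d2.le b0
  have : a * (‖T‖ - ε) + b * (‖T‖ - ε) = ‖T‖ - ε := by rw [← add_mul, ab, one_mul]
  linarith

end Pool.Agent.H.MP_ae5379_an
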